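import Mathlib
import Pool.Agent.EqTiling.Metric

set_option autoImplicit false

namespace Pool.Agent.Results.MP_aace41_co.ManyNonHexagons

open MeasureTheory

/-- The Euclidean plane. -/
abbrev Plane := EuclideanSpace ℝ (Fin 2)

/-- Twice the signed area of the triangle `a b c`. It is positive exactly when the three points
are not collinear and `a, b, c` is their counterclockwise order. -/
def orient (a b c : Plane) : ℝ :=
  (b 0 - a 0) * (c 1 - a 1) - (b 1 - a 1) * (c 0 - a 0)

/-- A convex polygon with `edges` edges, given by its vertices listed counterclockwise: any three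
of the vertices, taken in the order of the list, form a nondegenerate counterclockwise triangle.
So the vertices are in strictly convex position and each of them is a genuine corner. -/
structure ConvexPolygon where
  /-- the number of edges (and of vertices) -/
  edges : ℕ
  /-- the vertices in counterclockwise order -/
  vertex : Fin edges → Plane
  three_le : 3 ≤ edges
  convex : ∀ i j k : Fin edges, i < j → j < k → 0 < orient (vertex i) (vertex j) (vertex k)

namespace ConvexPolygon

/-- The closed region bounded by the polygon: the convex hull of the vertices. -/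
def region (P : ConvexPolygon) : Set Plane := convexHull ℝ (Set.range P.vertex)

/-- The perimeter: the sum of the distances between cyclically consecutive vertices. -/
noncomputable def perimeter (P : ConvexPolygon) : ℝ :=
  ∑ i : Fin P.edges, dist (P.vertex i) (P.vertex (finRotate P.edges i))

/-- The area: the Lebesgue measure of the region. -/
noncomputable def area (P : ConvexPolygon) : ℝ := (volume P.region).toReal

end ConvexPolygon

/-- A tiling of the plane: a countable family of convex polygons which cover the plane and have
pairwise disjoint interiors. -/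
def IsTiling {ι : Type} (T : ι → ConvexPolygon) : Prop :=
  Countable ι ∧ (⋃ i, (T i).region) = Set.univ ∧
    ∀ i j, i ≠ j → Disjoint (interior (T i).region) (interior (T j).region)

open Pool.Agent.EqTiling in
/-- cyclic successor -/
lemma rotate_closed {n : ℕ} (hn : 0 < n) {v : ℕ → ℂ} (hv : v n = v 0) (i : Fin n) :
    v (finRotate n i) = v (i + 1) := by
  obtain ⟨n, rfl⟩ : ∃ n', n = n' + 1 := ⟨n - 1, by omega⟩
  rw [finRotate_apply, Fin.val_add_one]
  split_ifs with h
  · rw [h, Fin.val_last]
    exact hv.symm
  · rfl

open Pool.Agent.EqTiling in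
/-- the isometry from the complex numbers to the plane -/
noncomputable def isoP : ℂ ≃ₗᵢ[ℝ] Plane := Complex.orthonormalBasisOneI.repr

lemma isoP_zero (z : ℂ) : isoP z 0 = z.re := rfl

lemma isoP_one (z : ℂ) : isoP z 1 = z.im := rfl

lemma volume_image (S : Set ℂ) : volume (isoP '' S) = volume S := by
  have h := (LinearIsometryEquiv.measurePreserving isoP).measure_preimage_emb
    isoP.toHomeomorph.measurableEmbedding (isoP '' S)
  rw [← h]
  congr 1
  exact (Set.preimage_image_eq S isoP.injective)

open Pool.Agent.EqTiling in
lemma octagons (m : ℕ) [NeZero m] : m ≤ {i : Tl m | 6 < NN i}.ncard := by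
  classical
  have hfin : {i : Tl m | 6 < NN i}.Finite := by
    apply Set.Finite.subset (s := (Set.univ : Set (ZMod (4 * m))) ×ˢ (({0} : Set ℕ) ×ˢ ({0} : Set ℕ)))
    · exact Set.finite_univ.prod ((Set.finite_singleton 0).prod (Set.finite_singleton 0))
    · intro i hi
      have hW : IsW i := by
        by_contra h
        have h2 : 6 < NN i := hi
        rw [NN_H h] at h2
        exact lt_irrefl _ h2
      obtain ⟨_, h2, h3⟩ := hW
      exact ⟨Set.mem_univ _, h2, h3⟩
  set g : Fin m → Tl m := fun k => (((4 * k.val : ℕ) : ZMod (4 * m)), 0, 0) with hg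
  have hginj : Function.Injective g := by
    intro a b hab
    have h1 : ((4 * a.val : ℕ) : ZMod (4 * m)) = ((4 * b.val : ℕ) : ZMod (4 * m)) :=
      congrArg Prod.fst hab
    have ha : 4 * a.val < 4 * m := by omega
    have hb : 4 * b.val < 4 * m := by omega
    have h2 := congrArg ZMod.val h1
    rw [ZMod.val_cast_of_lt ha, ZMod.val_cast_of_lt hb] at h2
    apply Fin.ext
    omega
  have hsub : Set.range g ⊆ {i : Tl m | 6 < NN i} := by
    rintro _ ⟨k, rfl⟩
    have hW : IsW (g k) := by
      refine ⟨?_, rfl, rfl⟩
      show cls (((4 * k.val : ℕ) : ZMod (4 * m))) = 0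
      rw [cls_nat]
      exact (ZMod.natCast_eq_zero_iff _ _).2 (Dvd.intro _ rfl)
    show 6 < NN (g k)
    rw [NN_W hW]
    norm_num
  have h3 := Set.ncard_le_ncard hsub hfin
  have h4 : (Set.range g).ncard = m := by
    rw [← Set.image_univ, Set.ncard_image_of_injective _ hginj, Set.ncard_univ, Nat.card_eq_fintype_card,
      Fintype.card_fin]
  rw [h4] at h3
  exact h3

open Pool.Agent.EqTiling in
/-- **Q1.** For every `k ≥ 1` the plane has a tiling by convex polygons of one common area and one
common perimeter, all of them with at least six edges and at least `k` of them with more than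
six edges. -/
theorem result : ∀ k : ℕ, 1 ≤ k → ∃ (ι : Type) (T : ι → ConvexPolygon) (A p : ℝ),
    IsTiling T ∧ (∀ i, (T i).area = A) ∧ (∀ i, (T i).perimeter = p) ∧
      (∀ i, 6 ≤ (T i).edges) ∧ k ≤ {i | 6 < (T i).edges}.ncard := by
  intro k _
  obtain ⟨m, hkm, h2, x, s, hP⟩ := exists_par k
  have : NeZero m := ⟨by omega⟩
  have hM := matched hP
  let T : Tl m → ConvexPolygon := fun i =>
    { edges := NN i
      vertex := fun k => isoP (VX m x s i k)
      three_le := hM.three i
      convex := fun a b c hab hbc => by
        have h := hM.ccw i a b c hab hbc c.2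
        unfold ori at h
        unfold orient
        simp only [isoP_zero, isoP_one]
        simpa only [Complex.sub_re, Complex.sub_im] using h }
  have hreg : ∀ i, (T i).region = isoP '' (body (NN (m := m)) (VX m x s) i) := by
    intro i
    unfold ConvexPolygon.region body
    have h1 : Set.range (T i).vertex = isoP '' (VX m x s i '' Set.Iio (NN i)) := by
      ext y
      constructor
      · rintro ⟨k, rfl⟩
        exact ⟨_, ⟨k.val, k.2, rfl⟩, rfl⟩
      · rintro ⟨_, ⟨k, hk, rfl⟩, rfl⟩
        exact ⟨⟨k, hk⟩, rfl⟩
    rw [h1]
    exact (LinearMap.image_convexHull (isoP.toLinearEquiv : ℂ →ₗ[ℝ] Plane) _).symm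
  have hcov := tiles hP
  refine ⟨Tl m, T, s * (2 + 2 * x.2.2), 6, ⟨inferInstance, ?_, ?_⟩, ?_, ?_, ?_, ?_⟩
  · simp only [hreg]
    rw [← Set.image_iUnion, hcov.1, Set.image_univ]
    exact isoP.surjective.range_eq
  · intro i j hij
    rw [hreg, hreg]
    have e : ∀ S : Set ℂ, interior (isoP '' S) = isoP '' interior S := fun S =>
      (isoP.toHomeomorph.image_interior S).symm
    rw [e, e]
    exact Set.disjoint_image_of_injective isoP.injective (hcov.2 i j hij)
  · intro i
    unfold ConvexPolygon.area
    rw [hreg, volume_image, volume_VX hP, ENNReal.toReal_ofReal]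
    have := hP.s_pos
    have := hP.good.hc
    apply mul_nonneg <;> linarith
  · intro i
    unfold ConvexPolygon.perimeter
    rw [← perimeter_VX hP i, Finset.sum_range]
    apply Finset.sum_congr rfl
    intro k _
    show dist (isoP (VX m x s i k)) (isoP (VX m x s i (finRotate (NN i) k))) = _
    rw [isoP.dist_map]
    congr 1
    exact rotate_closed (by have := NN_le i; omega) (hM.closed i) k
  · intro i
    exact NN_le i
  · exact hkm.trans (octagons m)

end Pool.Agent.Results.MP_aace41_co.ManyNonHexagons
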